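import Pool.Agent.H14.QF.Coc

/-!
# Cographic 2-blocks whose cocircuits have at most fifteen elements which are not local (MP_aa6b05_co)

Let `S` be a cographic matroid represented over GF(2).  The local elements of `S` are the least set
which contains all cocircuits with at most four elements, and all cocircuits which have at most four
elements after local elements have been deleted.  If every cocircuit of `S` has at most fifteen
elements which are not local, and `S` is a 2-block, then `S` has a minor which is the cographic
matroid of the Petersen graph.  The rank, the number of elements and the sizes of the cocircuits are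
not bounded.  So no such matroid contradicts Tutte's conjecture, by which every 2-block has one of
the three known tangential 2-blocks as a minor.

Proof.  Circuits of the graph `G` are cocircuits of `S = M*(G)`, and the cycles of `G` are the
supports of the linear forms, so that the local elements of `S` are the local edges of `G`.  Then
`H14.QF.Mn.principle` is used: a minimal contraction of `G` (contraction of connected sets of
vertices) without a nowhere-zero 4-flow has no circuits with two, three or four edges, all local
edges are loops in it, and its circuits can be lifted to circuits of `G` so that all edges are kept;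
so it has circumference at most fifteen, and the library theorem for MP_e6539c_co
(`CircumferenceFifteen`) gives a Petersen minor.
-/

set_option autoImplicit false

namespace Pool.Agent.Results.MP_aa6b05_co.LongCocircuits

/-- The incidence vector of the vertex `v` over GF(2). -/
def star {V E : Type} [DecidableEq V] (src dst : E → V) (v : V) : E → ZMod 2 :=
  fun e => (if src e = v then 1 else 0) + (if dst e = v then 1 else 0)

/-- The vectors `vec e` represent the cographic matroid of the graph: the linear relations between
them are exactly the elements of the cut space, which is spanned by the incidence vectors. -/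
def RepresentsCographic {V E : Type} [DecidableEq V] [Fintype E] (src dst : E → V) {n : ℕ}
    (vec : E → Fin n → ZMod 2) : Prop :=
  ∀ x : E → ZMod 2, ∑ e, x e • vec e = 0 ↔
    x ∈ Submodule.span (ZMod 2) (Set.range (star src dst))

/-- The matroid represented by `S` is cographic: there is a finite multigraph whose edges correspond
to the elements of `S` such that these represent its cographic matroid. -/
def IsCographic {n : ℕ} (S : Set (Fin n → ZMod 2)) : Prop :=
  ∃ (V E : Type) (_ : Fintype V) (_ : DecidableEq V) (_ : Fintype E) (src dst : E → V)
    (vec : E → Fin n → ZMod 2),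
    RepresentsCographic src dst vec ∧ Function.Injective vec ∧ Set.range vec = S

/-- The support of the linear form `f` on `S`: the complement of a hyperplane section. -/
def support {n : ℕ} (S : Set (Fin n → ZMod 2)) (f : (Fin n → ZMod 2) →ₗ[ZMod 2] ZMod 2) :
    Set (Fin n → ZMod 2) := {s ∈ S | f s ≠ 0}

/-- The cocircuits of the matroid represented by `S`: the minimal nonempty sets among the supports
of the linear forms on `S`. -/
def IsCocircuit {n : ℕ} (S D : Set (Fin n → ZMod 2)) : Prop :=
  D.Nonempty ∧ (∃ f, D = support S f) ∧ ∀ f, support S f ⊆ D → (support S f).Nonempty →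
    support S f = D

/-- The element `x` is local in the matroid represented by `S`: it is in every set `F` such that the
support of each linear form (a disjoint union of cocircuits) with at most four elements outside of
`F` is contained in `F`. -/
def IsLocal {n : ℕ} (S : Set (Fin n → ZMod 2)) (x : Fin n → ZMod 2) : Prop :=
  ∀ F : Set (Fin n → ZMod 2), (∀ f, (support S f \ F).ncard ≤ 4 → support S f ⊆ F) → x ∈ F

/-- The simple matroid represented by the set `S` of vectors over GF(2) is a 2-block: `S` has no
zero vector and no linear map to the plane over GF(2) is nonzero on all of `S`. -/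
def IsTwoBlock {n : ℕ} (S : Set (Fin n → ZMod 2)) : Prop :=
  (0 : Fin n → ZMod 2) ∉ S ∧
    ¬ ∃ L : (Fin n → ZMod 2) →ₗ[ZMod 2] (Fin 2 → ZMod 2), ∀ s ∈ S, L s ≠ 0

/-- The cut space of the Petersen graph: vertices `0, ..., 9`, edges `0, ..., 14`. -/
def petersenCuts : Submodule (ZMod 2) (Fin 15 → ZMod 2) :=
  Submodule.span (ZMod 2) (Set.range (fun v : Fin 10 => fun k : Fin 15 =>
    if (![0,1,2,3,4,5,6,7,8,9,0,1,2,3,4] : Fin 15 → Fin 10) k = v ∨
       (![1,2,3,4,0,7,8,9,5,6,5,6,7,8,9] : Fin 15 → Fin 10) k = v
    then (1 : ZMod 2) else 0))

/-- Let `S` be a set of vectors over GF(2) which represents a cographic matroid, all of whose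
cocircuits have at most 15 elements which are not local.  If `S` is a 2-block then the minor of `S`
which is obtained by the contraction of some `C ⊆ S` and the restriction to some 15 elements of `S`
is the cographic matroid of the Petersen graph. -/
theorem result (n : ℕ) (S : Set (Fin n → ZMod 2)) (hS : IsCographic S)
    (h : ∀ D, IsCocircuit S D → {x ∈ D | ¬ IsLocal S x}.ncard ≤ 15) (h2 : IsTwoBlock S) :
    ∃ (C : Set (Fin n → ZMod 2)) (t : Fin 15 → Fin n → ZMod 2),
      C ⊆ S ∧ Set.range t ⊆ S ∧ Function.Injective t ∧
      ∀ x : Fin 15 → ZMod 2, ∑ k, x k • t k ∈ Submodule.span (ZMod 2) C ↔ x ∈ petersenCuts := by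
  classical
  obtain ⟨V, E, _, hdV, _, src, dst, vec, hv, hinj, hr⟩ := hS
  have hv' : TH676.Blk.RepCo src dst vec := hv
  obtain ⟨hz, hL⟩ := h2
  have h0 : ∀ e, vec e ≠ 0 := by
    intro e he
    apply hz
    rw [← hr, ← he]
    exact ⟨e, rfl⟩
  have hnz : ¬ TH499.TF.NZ src dst := by
    intro h
    obtain ⟨L, hL'⟩ := hv'.map h
    apply hL
    refine ⟨L, fun s hs => ?_⟩
    rw [← hr] at hs
    obtain ⟨e, rfl⟩ := hs
    exact hL' e
  have hPM : TH499.TF.PM src dst := by
    by_contra hPM
    refine hnz (H14.QF.Coc.nz_of_coc hv' hinj hr h0 hPM fun f h1 h2 => ?_)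
    exact h _ ⟨h1, ⟨f, rfl⟩, fun f' h3 h4 => h2 f' h3 h4⟩
  obtain ⟨D, ed, hx⟩ := hv'.minor hPM
  refine ⟨vec '' (D : Set E), fun k => vec (ed k), ?_, ?_, ?_, hx⟩
  · rintro _ ⟨e, _, rfl⟩
    rw [← hr]
    exact ⟨e, rfl⟩
  · rintro _ ⟨k, rfl⟩
    rw [← hr]
    exact ⟨ed k, rfl⟩
  · intro k l hkl
    by_contra hne
    apply TH676.Blk.pair_not_mem k l hne
    rw [← hx]
    have : ∑ m, (Pi.single k 1 + Pi.single l 1 : Fin 15 → ZMod 2) m • vec (ed m) = 0 := by
      simp only [Pi.add_apply, add_smul]
      rw [Finset.sum_add_distrib]
      simp only [Pi.single_apply, ite_smul, one_smul, zero_smul, Finset.sum_ite_eq',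
        Finset.mem_univ, if_true]
      have h3 : vec (ed k) = vec (ed l) := hkl
      rw [h3]
      funext i
      exact CharTwo.add_self_eq_zero _
    rw [this]
    exact Submodule.zero_mem _

end Pool.Agent.Results.MP_aa6b05_co.LongCocircuits
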